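import Pool.Agent.H947R2.CV.Stubs2

/-!
# Polynomial Freiman-Ruzsa for dense subsets of convex progressions: task SHR
-/

set_option autoImplicit false
open Finset
open scoped Pointwise

namespace H947CV

namespace SHRaux

theorem re_app {d : ℕ} (z : Fin d → ℤ) (i : Fin d) : re z i = (z i : ℝ) := rfl

theorem re_add {d : ℕ} (z w : Fin d → ℤ) : re (z + w) = re z + re w := by
  funext i; simp [re_app]

theorem re_sub {d : ℕ} (z w : Fin d → ℤ) : re (z - w) = re z - re w := by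
  funext i; simp [re_app]

theorem re_zero {d : ℕ} : re (0 : Fin d → ℤ) = 0 := by
  funext i; simp [re_app]

theorem re_nsmul {d : ℕ} (n : ℕ) (z : Fin d → ℤ) : re (n • z) = (n : ℝ) • re z := by
  funext i; simp [re_app]

/-- lattice points of `μ C` -/
def L {d : ℕ} (C : Set (Fin d → ℝ)) (μ : ℝ) : Set (Fin d → ℤ) := {z | ∃ c ∈ C, re z = μ • c}

section

variable {d : ℕ} {C : Set (Fin d → ℝ)}

theorem zero_mem (hC : Convex ℝ C) (hs : ∀ x ∈ C, -x ∈ C) {x : Fin d → ℝ} (hx : x ∈ C) :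
    (0 : Fin d → ℝ) ∈ C := by
  have := hC hx (hs x hx) (a := 1 / 2) (b := 1 / 2) (by norm_num) (by norm_num) (by norm_num)
  simpa using this

theorem half_sub (hC : Convex ℝ C) (hs : ∀ x ∈ C, -x ∈ C) {x y : Fin d → ℝ} (hx : x ∈ C)
    (hy : y ∈ C) : (1 / 2 : ℝ) • (x - y) ∈ C := by
  have := hC hx (hs y hy) (a := 1 / 2) (b := 1 / 2) (by norm_num) (by norm_num) (by norm_num)
  have e : (1 / 2 : ℝ) • (x - y) = (1 / 2 : ℝ) • x + (1 / 2 : ℝ) • -y := by
    rw [smul_sub, smul_neg, sub_eq_add_neg]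
  rw [e]; exact this

theorem smul_mem' (hC : Convex ℝ C) (h0 : (0 : Fin d → ℝ) ∈ C) {x : Fin d → ℝ} (hx : x ∈ C)
    {t : ℝ} (ht : 0 ≤ t) (ht1 : t ≤ 1) : t • x ∈ C :=
  hC.smul_mem_of_zero_mem h0 hx ⟨ht, ht1⟩

theorem L_mono (hC : Convex ℝ C) (h0 : (0 : Fin d → ℝ) ∈ C) {μ μ' : ℝ} (h : 0 ≤ μ) (hμ : μ ≤ μ')
    (hμ' : 0 < μ') : L C μ ⊆ L C μ' := by
  rintro z ⟨c, hc, hz⟩
  refine ⟨(μ / μ') • c, smul_mem' hC h0 hc (by positivity) (by
    rw [div_le_one hμ']; exact hμ), ?_⟩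
  rw [hz, smul_smul, mul_div_cancel₀ _ hμ'.ne']

theorem zero_mem_L (h0 : (0 : Fin d → ℝ) ∈ C) (μ : ℝ) : (0 : Fin d → ℤ) ∈ L C μ :=
  ⟨0, h0, by rw [re_zero, smul_zero]⟩

theorem cls (hC : Convex ℝ C) (hs : ∀ x ∈ C, -x ∈ C) (h0 : (0 : Fin d → ℝ) ∈ C)
    (m : ℕ) [NeZero m] {μ μ' : ℝ} (hμ : 0 < μ) (hμ' : 0 < μ') (h : 2 * μ ≤ m * μ')
    (hfin : (L C μ').Finite) :
    (L C μ).Finite ∧ (L C μ).ncard ≤ m ^ d * (L C μ').ncard := by
  classical
  have hm : (0 : ℝ) < m := by exact_mod_cast Nat.pos_of_ne_zero (NeZero.ne m)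
  let r : (Fin d → ℤ) → (Fin d → ZMod m) := fun z i => (z i : ZMod m)
  let z0 : (Fin d → ZMod m) → (Fin d → ℤ) := fun ρ =>
    if hρ : ∃ z ∈ L C μ, r z = ρ then hρ.choose else 0
  have hz0 : ∀ z ∈ L C μ, z0 (r z) ∈ L C μ ∧ r (z0 (r z)) = r z := by
    intro z hz
    have hex : ∃ z' ∈ L C μ, r z' = r z := ⟨z, hz, rfl⟩
    have e : z0 (r z) = hex.choose := dif_pos hex
    rw [e]
    exact hex.choose_spec
  have hdvd : ∀ z ∈ L C μ, ∀ i, (m : ℤ) ∣ z i - z0 (r z) i := by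
    intro z hz i
    have h1 := (hz0 z hz).2
    have h2 : (z0 (r z) i : ZMod m) = (z i : ZMod m) := congrFun h1 i
    rw [ZMod.intCast_eq_intCast_iff_dvd_sub] at h2
    exact h2
  let Φ : (Fin d → ℤ) → (Fin d → ZMod m) × (Fin d → ℤ) := fun z =>
    (r z, fun i => (z i - z0 (r z) i) / m)
  have hmaps : ∀ z ∈ L C μ, Φ z ∈ (Set.univ : Set (Fin d → ZMod m)) ×ˢ L C μ' := by
    intro z hz
    refine ⟨Set.mem_univ _, ?_⟩
    obtain ⟨c, hc, hcz⟩ := hz
    obtain ⟨c0, hc0, hcz0⟩ := (hz0 z ⟨c, hc, hcz⟩).1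
    refine ⟨(2 * μ / (m * μ')) • ((1 / 2 : ℝ) • (c - c0)),
      smul_mem' hC h0 (half_sub hC hs hc hc0) (by positivity) (by
        rw [div_le_one (by positivity)]; exact h), ?_⟩
    funext i
    have hd := hdvd z ⟨c, hc, hcz⟩ i
    obtain ⟨k, hk⟩ := hd
    have hmz : (m : ℤ) ≠ 0 := by exact_mod_cast NeZero.ne m
    have e1 : (z i - z0 (r z) i) / (m : ℤ) = k := by
      rw [hk]; exact Int.mul_ediv_cancel_left _ hmz
    have e2 : ((z i : ℝ) - (z0 (r z) i : ℝ)) = m * (k : ℝ) := by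
      have := congrArg (fun t : ℤ => (t : ℝ)) hk
      push_cast at this
      exact this
    have e3 : (z i : ℝ) = μ * c i := by
      have := congrFun hcz i
      simpa [re_app] using this
    have e4 : (z0 (r z) i : ℝ) = μ * c0 i := by
      have := congrFun hcz0 i
      simpa [re_app] using this
    change (((z i - z0 (r z) i) / (m : ℤ) : ℤ) : ℝ) = _
    rw [e1]
    simp only [Pi.smul_apply, Pi.sub_apply, smul_eq_mul]
    have e5 : (k : ℝ) = (μ * c i - μ * c0 i) / m := by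
      rw [eq_div_iff hm.ne', ← e3, ← e4, e2]; ring
    rw [e5]
    field_simp
  have hinj : Set.InjOn Φ (L C μ) := by
    intro z hz z' hz' hzz
    have h1 : r z = r z' := congrArg Prod.fst hzz
    have h2 : (fun i => (z i - z0 (r z) i) / (m : ℤ)) = fun i => (z' i - z0 (r z') i) / (m : ℤ) :=
      congrArg Prod.snd hzz
    funext i
    obtain ⟨k, hk⟩ := hdvd z hz i
    obtain ⟨k', hk'⟩ := hdvd z' hz' i
    have hmz : (m : ℤ) ≠ 0 := by exact_mod_cast NeZero.ne m
    have h3 := congrFun h2 i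
    rw [hk, hk', Int.mul_ediv_cancel_left _ hmz, Int.mul_ediv_cancel_left _ hmz] at h3
    rw [h3] at hk
    rw [h1] at hk
    linarith
  have hfin2 : ((Set.univ : Set (Fin d → ZMod m)) ×ˢ L C μ').Finite :=
    Set.Finite.prod Set.finite_univ hfin
  refine ⟨Set.Finite.of_injOn hmaps hinj hfin2, ?_⟩
  have h1 := Set.ncard_le_ncard_of_injOn Φ hmaps hinj hfin2
  rw [Set.ncard_prod, Set.ncard_univ, Nat.card_eq_fintype_card, Fintype.card_fun, ZMod.card,
    Fintype.card_fin] at h1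
  exact h1

end

end SHRaux

open SHRaux

theorem SHR_proof : St_SHR := by
  classical
  intro d C V N hC hs hV hne hN
  obtain ⟨v0, hv0⟩ := hne
  have h0 : (0 : Fin d → ℝ) ∈ C := zero_mem hC hs ((hV v0).1 hv0)
  have hL1 : L C 1 = (V : Set (Fin d → ℤ)) := by
    ext z
    constructor
    · rintro ⟨c, hc, hz⟩
      rw [one_smul] at hz
      exact (hV z).2 (hz ▸ hc)
    · intro hz
      exact ⟨re z, (hV z).1 hz, by rw [one_smul]⟩
  have hfin1 : (L C 1).Finite := by rw [hL1]; exact V.finite_toSet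
  have hcard1 : (L C 1).ncard = V.card := by rw [hL1]; exact Set.ncard_coe_finset V
  have hfin : ∀ μ : ℝ, 0 < μ → (L C μ).Finite := by
    intro μ hμ
    obtain ⟨m, hm⟩ := exists_nat_ge (2 * μ)
    have hm0 : m ≠ 0 := by
      rintro rfl
      simp at hm
      linarith
    have : NeZero m := ⟨hm0⟩
    exact (cls hC hs h0 m hμ one_pos (by simpa using hm) hfin1).1
  -- the least `j`
  have hex : ∃ j : ℕ, (L C ((1 / 2 : ℝ) ^ j)).ncard ≤ N := by
    refine ⟨V.card, ?_⟩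
    have hsub : L C ((1 / 2 : ℝ) ^ V.card) ⊆ {0} := by
      intro z hz
      by_contra hz0
      have hz0' : z ≠ 0 := hz0
      obtain ⟨c, hc, hcz⟩ := hz
      have hmem : ∀ i ∈ Finset.range (V.card + 1), (2 ^ i : ℕ) • z ∈ V := by
        intro i hi
        have hi' : i ≤ V.card := Nat.lt_succ_iff.1 (Finset.mem_range.1 hi)
        rw [hV, re_nsmul, hcz, smul_smul]
        refine smul_mem' hC h0 hc (by positivity) ?_
        push_cast
        have e : (1 / 2 : ℝ) ^ V.card = (1 / 2) ^ i * (1 / 2) ^ (V.card - i) := by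
          rw [← pow_add, Nat.add_sub_cancel' hi']
        rw [e, ← mul_assoc, ← mul_pow]
        have e2 : (2 : ℝ) * (1 / 2) = 1 := by norm_num
        rw [e2, one_pow, one_mul]
        exact pow_le_one₀ (by norm_num) (by norm_num)
      have hinj : Set.InjOn (fun i : ℕ => (2 ^ i : ℕ) • z)
          (Finset.range (V.card + 1) : Set ℕ) := by
        intro a _ b _ hab
        have hi : ∃ i, z i ≠ 0 := by
          by_contra hno
          push Not at hno
          exact hz0' (funext hno)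
        obtain ⟨i, hi⟩ := hi
        have h1 := congrFun hab i
        simp only [Pi.smul_apply, nsmul_eq_mul] at h1
        have h2 := mul_right_cancel₀ hi h1
        have h3 : (2 ^ a : ℕ) = 2 ^ b := by exact_mod_cast h2
        exact Nat.pow_right_injective (le_refl 2) h3
      have hcard := Finset.card_le_card_of_injOn (fun i : ℕ => (2 ^ i : ℕ) • z)
        (s := Finset.range (V.card + 1)) (t := V) hmem hinj
      rw [Finset.card_range] at hcard
      omega
    have h1 := Set.ncard_le_ncard hsub (Set.finite_singleton 0)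
    rw [Set.ncard_singleton] at h1
    exact h1.trans hN
  obtain ⟨j, hj, hjmin⟩ : ∃ j : ℕ, (L C ((1 / 2 : ℝ) ^ j)).ncard ≤ N ∧
      ∀ i < j, ¬ (L C ((1 / 2 : ℝ) ^ i)).ncard ≤ N :=
    ⟨Nat.find hex, Nat.find_spec hex, fun i hi => Nat.find_min hex hi⟩
  set μ : ℝ := (1 / 2 : ℝ) ^ j with hμdef
  have hμ : 0 < μ := by positivity
  have hμ1 : μ ≤ 1 := pow_le_one₀ (by norm_num) (by norm_num)
  have hμ2 : 0 < μ / 2 := by positivity
  let W : Finset (Fin d → ℤ) := (hfin (μ / 2) hμ2).toFinset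
  have hWmem : ∀ z, z ∈ W ↔ z ∈ L C (μ / 2) := fun z => Set.Finite.mem_toFinset _
  have hWcard : (L C (μ / 2)).ncard = W.card := Set.ncard_eq_toFinset_card _ _
  have hWne : W.Nonempty := ⟨0, (hWmem 0).2 (zero_mem_L h0 _)⟩
  let A : Finset (Fin d → ℤ) := (hfin 4 (by norm_num)).toFinset
  have hAmem : ∀ z, z ∈ A ↔ z ∈ L C 4 := fun z => Set.Finite.mem_toFinset _
  -- the sum
  have hAW : ((A + W : Finset (Fin d → ℤ)) : Set (Fin d → ℤ)) ⊆ L C (9 / 2) := by
    intro z hz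
    rw [Finset.mem_coe, Finset.mem_add] at hz
    obtain ⟨a, ha, w, hw, rfl⟩ := hz
    obtain ⟨c, hc, hac⟩ := (hAmem a).1 ha
    obtain ⟨c', hc', hwc⟩ := L_mono hC h0 hμ2.le (by linarith : μ / 2 ≤ 1 / 2) (by norm_num)
      ((hWmem w).1 hw)
    refine ⟨(8 / 9 : ℝ) • c + (1 / 9 : ℝ) • c', hC hc hc' (by norm_num) (by norm_num)
      (by norm_num), ?_⟩
    rw [re_add, hac, hwc, smul_add, smul_smul, smul_smul]
    norm_num
  have hAWcard : (A + W).card ≤ 9 ^ d * V.card := by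
    have h1 := Set.ncard_le_ncard hAW (hfin _ (by norm_num))
    rw [Set.ncard_coe_finset] at h1
    have h2 := (cls hC hs h0 9 (μ := 9 / 2) (μ' := 1) (by norm_num) one_pos (by norm_num)
      hfin1).2
    rw [hcard1] at h2
    exact h1.trans h2
  have hWpos : (0 : ℝ) < W.card := by exact_mod_cast hWne.card_pos
  obtain ⟨Y, -, hYcard, hY⟩ := Finset.ruzsa_covering_add (A := A) (B := W)
    (K := ((A + W).card : ℝ) / W.card) hWne (by rw [div_mul_cancel₀ _ hWpos.ne'])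
  have hYW : Y.card * W.card ≤ (A + W).card := by
    rw [le_div_iff₀ hWpos] at hYcard
    exact_mod_cast hYcard
  refine ⟨μ • C, (hfin μ hμ).toFinset, Y, hC.smul μ, ?_, ?_, ?_, ?_, ?_, ?_⟩
  · rintro x ⟨c, hc, rfl⟩
    exact ⟨-c, hs c hc, by simp⟩
  · intro y
    rw [Set.Finite.mem_toFinset]
    constructor
    · rintro ⟨c, hc, hy⟩
      exact ⟨c, hc, hy.symm⟩
    · rintro ⟨c, hc, hy⟩
      exact ⟨c, hc, hy.symm⟩
  · exact ⟨0, (Set.Finite.mem_toFinset _).2 (zero_mem_L h0 _)⟩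
  · rw [← Set.ncard_eq_toFinset_card _ (hfin μ hμ)]
    exact hj
  · rcases Nat.eq_zero_or_pos j with hj0 | hj0
    · -- `μ = 1`
      have hμe : μ = 1 := by rw [hμdef, hj0, pow_zero]
      have h1 := (cls hC hs h0 4 (μ := 1) (μ' := μ / 2) one_pos hμ2 (by rw [hμe]; norm_num)
        (hfin _ hμ2)).2
      rw [hcard1, hWcard] at h1
      have h2 : Y.card * W.card ≤ 36 ^ d * W.card := by
        calc Y.card * W.card ≤ (A + W).card := hYW
          _ ≤ 9 ^ d * V.card := hAWcard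
          _ ≤ 9 ^ d * (4 ^ d * W.card) := Nat.mul_le_mul_left _ h1
          _ = 36 ^ d * W.card := by rw [← mul_assoc, ← mul_pow]; norm_num
      have h3 : Y.card ≤ 36 ^ d := Nat.le_of_mul_le_mul_right h2 hWne.card_pos
      have h4 : 36 ^ d ≤ 72 ^ d := Nat.pow_le_pow_left (by norm_num) d
      exact Nat.mul_le_mul (h3.trans h4) (le_max_right _ _)
    · have h1 := hjmin (j - 1) (by omega)
      push Not at h1
      have e : (1 / 2 : ℝ) ^ (j - 1) = 2 * μ := by
        have : (1 / 2 : ℝ) ^ j = (1 / 2) ^ (j - 1) * (1 / 2) := by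
          rw [← pow_succ, Nat.sub_add_cancel hj0]
        rw [hμdef, this]; ring
      rw [e] at h1
      have h2 := (cls hC hs h0 8 (μ := 2 * μ) (μ' := μ / 2) (by positivity) hμ2
        (by push_cast; linarith) (hfin _ hμ2)).2
      rw [hWcard] at h2
      have h3 : N ≤ 8 ^ d * W.card := h1.le.trans h2
      calc Y.card * N ≤ Y.card * (8 ^ d * W.card) := Nat.mul_le_mul_left _ h3
        _ = 8 ^ d * (Y.card * W.card) := by ring
        _ ≤ 8 ^ d * (9 ^ d * V.card) := Nat.mul_le_mul_left _ (hYW.trans hAWcard)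
        _ = 72 ^ d * V.card := by rw [← mul_assoc, ← mul_pow]; norm_num
        _ ≤ 72 ^ d * max V.card N := Nat.mul_le_mul_left _ (le_max_left _ _)
  · rintro z ⟨c, hc, hz⟩
    have hzA : z ∈ A := (hAmem z).2 ⟨c, hc, hz⟩
    have h1 := hY hzA
    rw [Finset.mem_add] at h1
    obtain ⟨y, hy, w, hw, rfl⟩ := h1
    refine ⟨y, hy, ?_⟩
    rw [Finset.mem_sub] at hw
    obtain ⟨w1, hw1, w2, hw2, rfl⟩ := hw
    rw [add_sub_cancel_left, Set.Finite.mem_toFinset]
    obtain ⟨c1, hc1, e1⟩ := (hWmem w1).1 hw1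
    obtain ⟨c2, hc2, e2⟩ := (hWmem w2).1 hw2
    refine ⟨(1 / 2 : ℝ) • (c1 - c2), half_sub hC hs hc1 hc2, ?_⟩
    rw [re_sub, e1, e2, smul_smul, ← smul_sub]
    congr 1
    ring

end H947CV
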